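import Mathlib

set_option autoImplicit false

open Finset

namespace Pool.Agent.Helper9E

/-- a sum over dyadic intervals -/
lemma dyadic (δ T : ℝ) (hδ : 0 < δ) (hδ1 : δ ≤ 1 / 2) (hT : 0 < T) (G : Finset ℤ)
    (hG : ∀ g ∈ G, T ≤ |(g : ℝ)|)
    (hcount : ∀ Y, T ≤ Y → ((G.filter fun g : ℤ => |(g : ℝ)| ≤ Y).card : ℝ) ≤
      2 * Y ^ (1 / 2 - δ)) :
    ∑ g ∈ G, 1 / √|(g : ℝ)| ≤ 4 / (1 - (2 : ℝ) ^ (-δ)) * T ^ (-δ) := by
  classical
  set J : ℤ → ℕ := fun g => Nat.log 2 ⌊|(g : ℝ)| / T⌋₊ with hJ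
  have hJl : ∀ g ∈ G, (2 : ℝ) ^ (J g) * T ≤ |(g : ℝ)| := by
    intro g hg
    have h1 : 1 ≤ |(g : ℝ)| / T := by rw [le_div_iff₀ hT, one_mul]; exact hG g hg
    have h2 : 1 ≤ ⌊|(g : ℝ)| / T⌋₊ := Nat.one_le_floor_iff _ |>.mpr h1
    have h3 : 2 ^ (J g) ≤ ⌊|(g : ℝ)| / T⌋₊ := Nat.pow_log_le_self 2 (by omega)
    have h4 : ((2 ^ (J g) : ℕ) : ℝ) ≤ |(g : ℝ)| / T :=
      (by exact_mod_cast h3 : ((2 ^ (J g) : ℕ) : ℝ) ≤ (⌊|(g : ℝ)| / T⌋₊ : ℝ)).trans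
        (Nat.floor_le (by linarith))
    rw [le_div_iff₀ hT] at h4
    push_cast at h4
    exact h4
  have hJu : ∀ g ∈ G, |(g : ℝ)| ≤ (2 : ℝ) ^ (J g + 1) * T := by
    intro g hg
    have h3 : ⌊|(g : ℝ)| / T⌋₊ < 2 ^ (J g + 1) := Nat.lt_pow_succ_log_self (by norm_num) _
    have h4 : |(g : ℝ)| / T < ((2 ^ (J g + 1) : ℕ) : ℝ) := by
      have h5 := Nat.lt_floor_add_one (|(g : ℝ)| / T)
      have h6 : ((⌊|(g : ℝ)| / T⌋₊ : ℝ)) + 1 ≤ ((2 ^ (J g + 1) : ℕ) : ℝ) := by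
        exact_mod_cast (by omega : ⌊|(g : ℝ)| / T⌋₊ + 1 ≤ 2 ^ (J g + 1))
      linarith
    rw [div_lt_iff₀ hT] at h4
    push_cast at h4
    exact h4.le
  set N : ℕ := (G.sup J) + 1 with hN
  have hmaps : ∀ g ∈ G, J g ∈ range N := by
    intro g hg
    rw [mem_range]
    have := Finset.le_sup (f := J) hg
    omega
  set r : ℝ := (2 : ℝ) ^ (-δ) with hr
  have hr0 : 0 < r := by positivity
  have hr1 : r < 1 := Real.rpow_lt_one_of_one_lt_of_neg (by norm_num) (by linarith)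
  have hblock : ∀ j ∈ range N, ∑ g ∈ G.filter (fun g => J g = j), 1 / √|(g : ℝ)| ≤
      4 * T ^ (-δ) * r ^ j := by
    intro j _
    have hp : 0 < (2 : ℝ) ^ j * T := by positivity
    have h1 : ∑ g ∈ G.filter (fun g => J g = j), 1 / √|(g : ℝ)| ≤
        ∑ _g ∈ G.filter (fun g => J g = j), 1 / √((2 : ℝ) ^ j * T) := by
      refine sum_le_sum fun g hg => ?_
      rw [mem_filter] at hg
      have h2 := hJl g hg.1
      rw [hg.2] at h2
      exact one_div_le_one_div_of_le (Real.sqrt_pos.mpr hp) (Real.sqrt_le_sqrt h2)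
    rw [sum_const, nsmul_eq_mul] at h1
    have h3 : ((G.filter (fun g => J g = j)).card : ℝ) ≤
        2 * ((2 : ℝ) ^ (j + 1) * T) ^ (1 / 2 - δ) := by
      have hsub : G.filter (fun g => J g = j) ⊆
          G.filter fun g : ℤ => |(g : ℝ)| ≤ (2 : ℝ) ^ (j + 1) * T := by
        intro g hg
        rw [mem_filter] at hg ⊢
        have := hJu g hg.1
        rw [hg.2] at this
        exact ⟨hg.1, this⟩
      have h4 := hcount ((2 : ℝ) ^ (j + 1) * T) (by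
        have : (1 : ℝ) ≤ 2 ^ (j + 1) := one_le_pow₀ (by norm_num)
        nlinarith)
      refine le_trans ?_ h4
      exact_mod_cast card_le_card hsub
    have h5 : ((2 : ℝ) ^ (j + 1) * T) ^ (1 / 2 - δ) ≤ 2 * ((2 : ℝ) ^ j * T) ^ (1 / 2 - δ) := by
      rw [show (2 : ℝ) ^ (j + 1) * T = 2 * ((2 : ℝ) ^ j * T) by ring,
        Real.mul_rpow (by norm_num) hp.le]
      apply mul_le_mul_of_nonneg_right _ (by positivity)
      calc (2 : ℝ) ^ (1 / 2 - δ) ≤ (2 : ℝ) ^ (1 : ℝ) :=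
            Real.rpow_le_rpow_of_exponent_le (by norm_num) (by linarith)
        _ = 2 := Real.rpow_one 2
    have h6 : ((2 : ℝ) ^ j * T) ^ (1 / 2 - δ) * (1 / √((2 : ℝ) ^ j * T)) = T ^ (-δ) * r ^ j := by
      have hsq : 1 / √((2 : ℝ) ^ j * T) = ((2 : ℝ) ^ j * T) ^ (-(1 / 2) : ℝ) := by
        rw [Real.rpow_neg hp.le, ← Real.sqrt_eq_rpow, one_div]
      rw [hsq, ← Real.rpow_add hp,
        show (1 / 2 - δ + -(1 / 2) : ℝ) = -δ by ring, Real.mul_rpow (by positivity) hT.le,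
        ← Real.rpow_natCast 2 j, ← Real.rpow_mul (by norm_num), hr, ← Real.rpow_natCast (2 ^ (-δ)) j,
        ← Real.rpow_mul (by norm_num), mul_comm (-δ) (j : ℝ)]
      ring
    calc ∑ g ∈ G.filter (fun g => J g = j), 1 / √|(g : ℝ)|
        ≤ ((G.filter (fun g => J g = j)).card : ℝ) * (1 / √((2 : ℝ) ^ j * T)) := h1
      _ ≤ (2 * (2 * ((2 : ℝ) ^ j * T) ^ (1 / 2 - δ))) * (1 / √((2 : ℝ) ^ j * T)) := by
          apply mul_le_mul_of_nonneg_right _ (by positivity)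
          linarith
      _ = 4 * (((2 : ℝ) ^ j * T) ^ (1 / 2 - δ) * (1 / √((2 : ℝ) ^ j * T))) := by ring
      _ = _ := by rw [h6]; ring
  have hgeom : ∑ j ∈ range N, r ^ j ≤ 1 / (1 - r) := by
    have h1 : (1 - r) * ∑ j ∈ range N, r ^ j = 1 - r ^ N := by
      have := mul_neg_geom_sum r N
      linarith
    rw [le_div_iff₀ (by linarith), mul_comm, h1]
    have : 0 < r ^ N := by positivity
    linarith
  calc ∑ g ∈ G, 1 / √|(g : ℝ)|
      = ∑ j ∈ range N, ∑ g ∈ G.filter (fun g => J g = j), 1 / √|(g : ℝ)| :=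
        (sum_fiberwise_of_maps_to hmaps _).symm
    _ ≤ ∑ j ∈ range N, 4 * T ^ (-δ) * r ^ j := sum_le_sum hblock
    _ = 4 * T ^ (-δ) * ∑ j ∈ range N, r ^ j := by rw [mul_sum]
    _ ≤ 4 * T ^ (-δ) * (1 / (1 - r)) := by
        apply mul_le_mul_of_nonneg_left hgeom (by positivity)
    _ = _ := by ring

end Pool.Agent.Helper9E
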