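import Mathlib

set_option autoImplicit false

open Finset

namespace Pool.Agent.Helper9E

lemma card_mem (P : Finset ℕ) (k : ℕ) (p : ℕ) (hp : p ∈ P) :
    ((P.powersetCard (k + 1)).filter fun A => p ∈ A).card ≤ (P.card - 1).choose k := by
  classical
  have h1 : (P.powersetCard (k + 1)).filter (fun A => p ∈ A) ⊆
      ((P.erase p).powersetCard k).image (insert p) := by
    intro A hA
    rw [mem_filter, mem_powersetCard] at hA
    obtain ⟨⟨h1, h2⟩, h3⟩ := hA
    rw [mem_image]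
    refine ⟨A.erase p, ?_, insert_erase h3⟩
    rw [mem_powersetCard]
    refine ⟨erase_subset_erase p h1, ?_⟩
    rw [card_erase_of_mem h3, h2]
    rfl
  refine (card_le_card h1).trans (card_image_le.trans ?_)
  rw [card_powersetCard, card_erase_of_mem hp]

/-- the elementary symmetric polynomial of signs most of which are `1` -/
lemma esym_lower (P : Finset ℕ) (k : ℕ) (x : ℕ → ℤ) (hx : ∀ p ∈ P, |x p| ≤ 1) :
    ((P.card).choose (k + 1) : ℤ) -
        2 * ((P.filter fun p => x p ≠ 1).card * (P.card - 1).choose k : ℕ) ≤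
      ∑ A ∈ P.powersetCard (k + 1), ∏ p ∈ A, x p := by
  classical
  set Ex := P.filter fun p => x p ≠ 1 with hEx
  have h1 : ∀ A ∈ P.powersetCard (k + 1),
      (1 : ℤ) - 2 * ∑ p ∈ Ex, (if p ∈ A then 1 else 0) ≤ ∏ p ∈ A, x p := by
    intro A hA
    rw [mem_powersetCard] at hA
    by_cases h : ∃ p ∈ Ex, p ∈ A
    · obtain ⟨p, hp1, hp2⟩ := h
      have h2 : (1 : ℤ) ≤ ∑ p ∈ Ex, (if p ∈ A then 1 else 0) := by
        calc (1 : ℤ) = if p ∈ A then 1 else 0 := by rw [if_pos hp2]
          _ ≤ _ := single_le_sum (f := fun p => if p ∈ A then (1 : ℤ) else 0)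
              (fun q _ => by positivity) hp1
      have h3 : |∏ p ∈ A, x p| ≤ 1 := by
        rw [abs_prod]
        exact prod_le_one (fun q _ => abs_nonneg _) fun q hq => hx q (hA.1 hq)
      have := (abs_le.mp h3).1
      linarith
    · push Not at h
      have h2 : ∏ p ∈ A, x p = 1 := by
        apply prod_eq_one
        intro p hp
        by_contra h3
        exact h p (mem_filter.mpr ⟨hA.1 hp, h3⟩) hp
      have h3 : (0 : ℤ) ≤ ∑ p ∈ Ex, (if p ∈ A then 1 else 0) :=
        sum_nonneg fun q _ => by positivity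
      rw [h2]
      linarith
  refine le_trans ?_ (sum_le_sum h1)
  rw [sum_sub_distrib, sum_const, card_powersetCard, nsmul_eq_mul, mul_one, ← mul_sum, sum_comm]
  have h2 : ∀ p ∈ Ex, ∑ A ∈ P.powersetCard (k + 1), (if p ∈ A then (1 : ℤ) else 0) ≤
      ((P.card - 1).choose k : ℤ) := by
    intro p hp
    rw [← sum_filter, sum_const, nsmul_eq_mul, mul_one]
    exact_mod_cast card_mem P k p (mem_filter.mp hp).1
  have h3 := sum_le_sum h2
  rw [sum_const, nsmul_eq_mul] at h3
  push_cast at h3 ⊢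
  linarith

/-- a lower bound for binomial coefficients -/
lemma choose_lower (K B : ℕ) (h : 2 * B ≤ K) : ((K : ℝ) / 2) ^ B ≤ (B : ℝ) ^ B * (K.choose B : ℝ) := by
  have h1 := Nat.pow_le_choose (α := ℝ) B K
  have h2 : ((K : ℝ) / 2) ≤ ((K + 1 - B : ℕ) : ℝ) := by
    rw [div_le_iff₀ (by norm_num)]
    exact_mod_cast (by omega : K ≤ (K + 1 - B) * 2)
  have h3 : ((K : ℝ) / 2) ^ B ≤ ((K + 1 - B : ℕ) : ℝ) ^ B := pow_le_pow_left₀ (by positivity) h2 B
  have h4 : ((B.factorial : ℕ) : ℝ) ≤ (B : ℝ) ^ B := by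
    exact_mod_cast Nat.factorial_le_pow B
  have h5 : ((K + 1 - B : ℕ) : ℝ) ^ B ≤ ((B.factorial : ℕ) : ℝ) * (K.choose B : ℝ) := by
    have hf : (0 : ℝ) < ((B.factorial : ℕ) : ℝ) := by exact_mod_cast B.factorial_pos
    rw [div_le_iff₀ hf] at h1
    linarith
  exact h3.trans (h5.trans (mul_le_mul_of_nonneg_right h4 (Nat.cast_nonneg _)))

end Pool.Agent.Helper9E
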