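import Pool.Agent.H423R2.RZL.HBLS
import Pool.Agent.Helper9E.Esym
import Pool.Agent.R852.LK.Pairs

set_option autoImplicit false

open Finset Filter Topology

namespace Pool.Agent.Helper9E

open Pool.Agent.R852.LK Pool.Agent.H306R2.RZ

/-- the products of `B` different primes -/
def prods (y B : ℕ) : Finset ℕ := ((PR y).powersetCard B).image fun A => ∏ p ∈ A, p

lemma prod_inj (y B : ℕ) : Set.InjOn (fun A : Finset ℕ => ∏ p ∈ A, p)
    ((PR y).powersetCard B : Finset (Finset ℕ)) := by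
  intro A hA A' hA' h
  rw [mem_coe, mem_powersetCard] at hA hA'
  have hp : ∀ p ∈ A, p.Prime := fun p hp => (mem_PR.mp (hA.1 hp)).2.1
  have hp' : ∀ p ∈ A', p.Prime := fun p hp => (mem_PR.mp (hA'.1 hp)).2.1
  have h1 : (∏ p ∈ A, p).primeFactors = A := Nat.primeFactors_prod hp
  have h2 : (∏ p ∈ A', p).primeFactors = A' := Nat.primeFactors_prod hp'
  rw [← h1, ← h2]
  exact congrArg Nat.primeFactors h

lemma prods_osf (y B : ℕ) : prods y B ⊆ osf (y ^ B) := by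
  intro n hn
  unfold prods at hn
  rw [mem_image] at hn
  obtain ⟨A, hA, rfl⟩ := hn
  rw [mem_powersetCard] at hA
  have hp : ∀ p ∈ A, p.Prime := fun p hp => (mem_PR.mp (hA.1 hp)).2.1
  unfold osf
  rw [mem_filter, Finset.mem_Icc]
  refine ⟨⟨Nat.one_le_iff_ne_zero.mpr (prod_ne_zero_iff.mpr fun p hp' => (hp p hp').ne_zero), ?_⟩,
    ?_, ?_⟩
  · calc ∏ p ∈ A, p ≤ ∏ _p ∈ A, y := prod_le_prod' fun p hp' => (mem_PR.mp (hA.1 hp')).1.le
      _ = y ^ B := by rw [prod_const, hA.2]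
  · apply Finset.prod_induction _ Odd (fun a b ha hb => ha.mul hb) odd_one
    intro p hp'
    exact (hp p hp').odd_of_ne_two (mem_PR.mp (hA.1 hp')).2.2
  · apply Finset.squarefree_prod_of_pairwise_isCoprime
    · intro p hp' q hq hpq
      show IsRelPrime _ _
      rw [← Nat.coprime_iff_isRelPrime, Nat.coprime_primes (hp _ hp') (hp _ hq)]
      exact hpq
    · intro p hp'
      exact (hp p hp').prime.squarefree

/-- the consequence of the large sieve inequality -/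
lemma large (y B M : ℕ) (C : ℝ) (hC : 0 ≤ C) (hLS : LSB M (y ^ B) C) (s : ℤ) (hs : s = 1 ∨ s = -1)
    (F : Finset ℕ) (hF : F ⊆ Pool.Agent.H306R2.RZ.sqf M) (W : ℝ) (hW : 0 ≤ W)
    (hFW : ∀ m ∈ F, W ≤ ((∑ A ∈ (PR y).powersetCard B, ∏ p ∈ A, ps (s * m) p : ℤ) : ℝ)) :
    (F.card : ℝ) * W ^ 2 ≤ C * ((PR y).card.choose B : ℝ) := by
  classical
  set a : ℕ → ℂ := fun n => if n ∈ prods y B then ((js s n : ℝ) : ℂ) else 0 with ha
  have h := hLS a
  have hsub := prods_osf y B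
  -- the right side
  have hC0 : ∑ n ∈ osf (y ^ B), ‖a n‖ ^ 2 ≤ ((PR y).card.choose B : ℝ) := by
    have h1 : ∑ n ∈ osf (y ^ B), ‖a n‖ ^ 2 = ∑ n ∈ prods y B, ‖a n‖ ^ 2 := by
      symm
      apply sum_subset hsub
      intro n _ hn
      simp only [ha]
      rw [if_neg hn]; simp
    rw [h1]
    have h2 : ∀ n ∈ prods y B, ‖a n‖ ^ 2 ≤ 1 := by
      intro n hn
      simp only [ha]
      rw [if_pos hn, Complex.norm_real, Real.norm_eq_abs]
      have h3 : |js s n| ≤ 1 := by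
        unfold js
        rcases jacobiSym.trichotomy s n with h | h | h <;> rw [h] <;> norm_num
      exact pow_le_one₀ (abs_nonneg _) h3
    refine (sum_le_sum h2).trans ?_
    rw [sum_const, nsmul_eq_mul, mul_one]
    have h3 : (prods y B).card ≤ (PR y).card.choose B := by
      unfold prods
      refine card_image_le.trans ?_
      rw [card_powersetCard]
    exact_mod_cast h3
  -- the left side
  have hin : ∀ m : ℕ, ∑ n ∈ osf (y ^ B), a n * ((js m n : ℝ) : ℂ) =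
      (((∑ A ∈ (PR y).powersetCard B, ∏ p ∈ A, ps (s * m) p : ℤ) : ℝ) : ℂ) := by
    intro m
    have h1 : ∑ n ∈ osf (y ^ B), a n * ((js m n : ℝ) : ℂ) =
        ∑ n ∈ prods y B, a n * ((js m n : ℝ) : ℂ) := by
      symm
      apply sum_subset hsub
      intro n _ hn
      simp only [ha]
      rw [if_neg hn, zero_mul]
    rw [h1]
    unfold prods
    rw [sum_image (prod_inj y B)]
    push_cast
    refine sum_congr rfl fun A hA => ?_
    have hmem : (∏ p ∈ A, p) ∈ prods y B := mem_image.mpr ⟨A, hA, rfl⟩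
    have hodd : Odd (∏ p ∈ A, p) := by
      have := hsub hmem
      unfold osf at this
      exact (mem_filter.mp this).2.1
    simp only [ha]
    rw [if_pos hmem]
    have e1 : ∏ p ∈ A, ps (s * m) p = jacobiSym (s * m) (∏ p ∈ A, p) := by
      have := ps_prod A (fun p => p) (s * (m : ℤ))
      rw [← this]
      unfold ps
      rw [if_pos hodd]
    have e2 : (∏ p ∈ A, ((ps (s * m) p : ℤ) : ℂ)) =
        ((jacobiSym (s * m) (∏ p ∈ A, p) : ℤ) : ℂ) := by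
      rw [← e1]; push_cast; rfl
    rw [e2, jacobiSym.mul_left]
    unfold js
    push_cast
    rfl
  have hleft : (F.card : ℝ) * W ^ 2 ≤
      ∑ m ∈ Pool.Agent.H306R2.RZ.sqf M, ‖∑ n ∈ osf (y ^ B), a n * ((js m n : ℝ) : ℂ)‖ ^ 2 := by
    calc (F.card : ℝ) * W ^ 2 = ∑ _m ∈ F, W ^ 2 := by rw [sum_const, nsmul_eq_mul]
      _ ≤ ∑ m ∈ F, ‖∑ n ∈ osf (y ^ B), a n * ((js m n : ℝ) : ℂ)‖ ^ 2 := by
          refine sum_le_sum fun m hm => ?_
          rw [hin, Complex.norm_real, Real.norm_eq_abs]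
          exact pow_le_pow_left₀ hW ((hFW m hm).trans (le_abs_self _)) 2
      _ ≤ _ := sum_le_sum_of_subset_of_nonneg hF fun _ _ _ => by positivity
  exact hleft.trans (h.trans (mul_le_mul_of_nonneg_left hC0 hC))

/-- **Few squarefree numbers**, with the large sieve inequality of Heath-Brown. -/
theorem few3 (c δ : ℝ) (hc0 : 0 < c) (hδ0 : 0 < δ) (hcδ : 2 * c + 20 * δ = 1) :
    ∀ᶠ y : ℕ in atTop, ∀ Y : ℝ, (y : ℝ) ^ (1 / δ) ≤ Y → Y ≤ Real.exp ((y : ℝ) ^ c) →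
    ∀ s : ℤ, (s = 1 ∨ s = -1) → ∀ F : Finset ℕ,
    (∀ m ∈ F, 1 ≤ m ∧ Squarefree m ∧ (m : ℝ) ≤ Y) →
    (∀ m ∈ F, (((PR y).filter fun p => ps (s * m) p ≠ 1).card : ℝ) ≤ 2 * (y : ℝ) ^ c) →
      (F.card : ℝ) ≤ Y ^ (1 / 2 - δ) := by
  obtain ⟨C₀, hC₀, hLS⟩ := Pool.Agent.H423R2.RZL.HBLSn.HBLS (δ / 2) (by positivity)
  have hδ1 : δ ≤ 1 / 20 := by linarith
  have a1 : ∀ᶠ y : ℕ in atTop, 8 * C₀ ≤ (y : ℝ) ^ δ :=
    tendsto_natCast_atTop_atTop.eventually ((tendsto_rpow_atTop hδ0).eventually_ge_atTop _)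
  have e2 : ∀ᶠ y : ℕ in atTop, (16 : ℝ) ≤ (y : ℝ) ^ δ :=
    tendsto_natCast_atTop_atTop.eventually ((tendsto_rpow_atTop hδ0).eventually_ge_atTop _)
  have e3 : ∀ᶠ y : ℕ in atTop, (1 : ℝ) ≤ Real.log (y : ℝ) :=
    (Real.tendsto_log_atTop.comp tendsto_natCast_atTop_atTop).eventually_ge_atTop 1
  filter_upwards [card_PR δ hδ0 (by linarith), a1, e2, e3, eventually_ge_atTop 1]
    with y hK h8C h16 hlog hy1 Y hY1 hY2 s hs F hF1 hF2
  have hy0 : (0 : ℝ) < y := by exact_mod_cast hy1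
  have hyone : (1 : ℝ) ≤ y := by exact_mod_cast hy1
  set L : ℝ := Real.log y with hL
  have hL0 : 0 < L := by linarith
  have hinv : 1 ≤ 1 / δ := by rw [le_div_iff₀ hδ0]; linarith
  have hyY : (y : ℝ) ≤ Y := by
    calc (y : ℝ) = (y : ℝ) ^ (1 : ℝ) := (Real.rpow_one _).symm
      _ ≤ (y : ℝ) ^ (1 / δ) := Real.rpow_le_rpow_of_exponent_le hyone hinv
      _ ≤ Y := hY1
  have hYone : (1 : ℝ) ≤ Y := by linarith
  have hY0 : (0 : ℝ) < Y := by linarith
  set V : ℝ := Real.log Y with hV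
  have hV1 : V ≤ (y : ℝ) ^ c := by
    have := Real.log_le_log hY0 hY2
    rwa [Real.log_exp] at this
  have hV2 : 1 / δ * L ≤ V := by
    have := Real.log_le_log (by positivity) hY1
    rwa [Real.log_rpow hy0] at this
  have hV2' : L ≤ δ * V := by
    have h1 := mul_le_mul_of_nonneg_left hV2 hδ0.le
    rwa [← mul_assoc, mul_one_div_cancel hδ0.ne', one_mul] at h1
  have hV0 : 0 < V := by nlinarith
  have hyc1 : 1 ≤ (y : ℝ) ^ c := Real.one_le_rpow hyone hc0.le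
  -- the exponent
  obtain ⟨B, hB1, hB2⟩ : ∃ B : ℕ, V ≤ (B : ℝ) * L ∧ (B : ℝ) * L ≤ (1 + δ) * V := by
    refine ⟨⌈V / L⌉₊, ?_, ?_⟩
    · have h1 := Nat.le_ceil (V / L)
      rwa [div_le_iff₀ hL0] at h1
    · have h1 := (Nat.ceil_lt_add_one (by positivity : 0 ≤ V / L)).le
      have h2 : (⌈V / L⌉₊ : ℝ) * L ≤ (V / L + 1) * L := mul_le_mul_of_nonneg_right h1 hL0.le
      have h3 : (V / L + 1) * L = V + L := by field_simp
      rw [h3] at h2
      linarith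
  have hB3 : (B : ℝ) ≤ 2 * (y : ℝ) ^ c := by
    have h1 : (B : ℝ) * 1 ≤ B * L := mul_le_mul_of_nonneg_left hlog (Nat.cast_nonneg _)
    have h2 : (1 + δ) * V ≤ 2 * V := mul_le_mul_of_nonneg_right (by linarith) hV0.le
    linarith
  have hBpos : 1 ≤ B := by
    by_contra h
    have h0 : B = 0 := by omega
    rw [h0] at hB1
    push_cast at hB1
    linarith
  obtain ⟨k, rfl⟩ : ∃ k, B = k + 1 := ⟨B - 1, by omega⟩
  set B : ℕ := k + 1 with hB
  have hyδ : 0 < (y : ℝ) ^ δ := by linarith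
  have hB4 : 2 * (B : ℝ) ≤ (y : ℝ) ^ (c + δ) := by
    rw [Real.rpow_add hy0]
    have h2 : (y : ℝ) ^ c * 16 ≤ (y : ℝ) ^ c * (y : ℝ) ^ δ :=
      mul_le_mul_of_nonneg_left h16 (by linarith)
    linarith
  set K : ℕ := (PR y).card with hKdef
  have hK0 : (0 : ℝ) < K := lt_of_lt_of_le (Real.rpow_pos_of_pos hy0 _) hK
  have hBK : 2 * B ≤ K := by
    have h1 : (y : ℝ) ^ (c + δ) ≤ (y : ℝ) ^ (1 - δ) :=
      Real.rpow_le_rpow_of_exponent_le hyone (by linarith)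
    have h2 : 2 * (B : ℝ) ≤ K := hB4.trans (h1.trans hK)
    exact_mod_cast h2
  -- the binomial coefficient
  set b : ℝ := (K.choose B : ℝ) with hb
  have hb0 : 0 < b := by
    rw [hb]
    exact_mod_cast Nat.choose_pos (by omega)
  have hb1 : ((K : ℝ) / 2) ^ B ≤ (B : ℝ) ^ B * b := choose_lower K B hBK
  -- the lower bound of the sums
  have hW : ∀ m ∈ F, b / 2 ≤
      ((∑ A ∈ (PR y).powersetCard B, ∏ p ∈ A, ps (s * m) p : ℤ) : ℝ) := by
    intro m hm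
    have h1 := esym_lower (PR y) k (fun p => ps (s * m) p) (fun p _ => ps_abs _ _)
    have h2 := hF2 m hm
    set Ex := ((PR y).filter fun p => ps (s * m) p ≠ 1).card with hEx
    have h3 : ((K.choose (k + 1) : ℕ) : ℝ) - 2 * ((Ex : ℝ) * ((K - 1).choose k : ℕ)) ≤
        ((∑ A ∈ (PR y).powersetCard B, ∏ p ∈ A, ps (s * m) p : ℤ) : ℝ) := by
      exact_mod_cast h1
    refine le_trans ?_ h3
    -- `K C(K - 1, k) = (k + 1) C(K, k + 1)`
    have h4 : (K : ℝ) * ((K - 1).choose k : ℕ) = (B : ℝ) * b := by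
      obtain ⟨K', hK'⟩ : ∃ K', K = K' + 1 := ⟨K - 1, by omega⟩
      have h5 := Nat.add_one_mul_choose_eq K' k
      rw [hb, hK', Nat.add_sub_cancel]
      have h6 : (((K' + 1) * K'.choose k : ℕ) : ℝ) = (((K' + 1).choose (k + 1) * (k + 1) : ℕ) : ℝ) := by
        exact_mod_cast h5
      push_cast at h6 ⊢
      rw [h6, hB]
      push_cast
      ring
    have h7 : 4 * ((Ex : ℝ) * B) ≤ K := by
      have h8 : (Ex : ℝ) * B ≤ (2 * (y : ℝ) ^ c) * (2 * (y : ℝ) ^ c) :=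
        mul_le_mul h2 hB3 (Nat.cast_nonneg _) (by positivity)
      have h9 : (y : ℝ) ^ δ * ((y : ℝ) ^ c * (y : ℝ) ^ c) ≤ (y : ℝ) ^ (1 - δ) := by
        rw [← Real.rpow_add hy0, ← Real.rpow_add hy0]
        exact Real.rpow_le_rpow_of_exponent_le hyone (by linarith)
      have h10 : 16 * ((y : ℝ) ^ c * (y : ℝ) ^ c) ≤ (y : ℝ) ^ δ * ((y : ℝ) ^ c * (y : ℝ) ^ c) :=
        mul_le_mul_of_nonneg_right h16 (by positivity)
      linarith
    have h11 : (K : ℝ) * (4 * ((Ex : ℝ) * ((K - 1).choose k : ℕ))) ≤ K * b := by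
      calc (K : ℝ) * (4 * ((Ex : ℝ) * ((K - 1).choose k : ℕ)))
          = 4 * Ex * ((K : ℝ) * ((K - 1).choose k : ℕ)) := by ring
        _ = 4 * ((Ex : ℝ) * B) * b := by rw [h4]; ring
        _ ≤ K * b := mul_le_mul_of_nonneg_right h7 hb0.le
    have h12 := le_of_mul_le_mul_left h11 hK0
    rw [← hB, ← hb]
    linarith
  -- the large sieve
  set M : ℕ := ⌊Y⌋₊ with hM
  have hM1 : 1 ≤ M := Nat.one_le_floor_iff _ |>.mpr hYone
  have hMY : (M : ℝ) ≤ Y := Nat.floor_le hY0.le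
  set N : ℕ := y ^ B with hN
  have hN1 : 1 ≤ N := Nat.one_le_pow _ _ hy1
  have hNr : (N : ℝ) = (y : ℝ) ^ B := by rw [hN]; push_cast; rfl
  have hN0 : (0 : ℝ) < N := by exact_mod_cast hN1
  have hlogN : Real.log N = B * L := by rw [hNr, Real.log_pow]
  have hYN : Y ≤ N := by
    rw [← Real.log_le_log_iff hY0 hN0, hlogN]
    exact hB1
  have hNY : (N : ℝ) ≤ Y ^ (1 + δ) := by
    rw [← Real.log_le_log_iff hN0 (by positivity), hlogN, Real.log_rpow hY0]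
    exact hB2
  have hNone : (1 : ℝ) ≤ N := by exact_mod_cast hN1
  have hM0 : (1 : ℝ) ≤ M := by exact_mod_cast hM1
  set C : ℝ := C₀ * ((M : ℝ) * N) ^ (δ / 2) * (M + N) with hC
  have hCnn : 0 ≤ C := by positivity
  have hCle : C ≤ 2 * C₀ * (N : ℝ) ^ (1 + δ) := by
    have h1 : ((M : ℝ) * N) ^ (δ / 2) ≤ (N : ℝ) ^ δ := by
      calc ((M : ℝ) * N) ^ (δ / 2) ≤ ((N : ℝ) * N) ^ (δ / 2) := by
            apply Real.rpow_le_rpow (by positivity) _ (by positivity)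
            exact mul_le_mul_of_nonneg_right (hMY.trans hYN) hN0.le
        _ = (N : ℝ) ^ δ := by
            rw [← sq, ← Real.rpow_natCast, ← Real.rpow_mul hN0.le]
            congr 1
            push_cast; ring
    have h2 : (M : ℝ) + N ≤ 2 * N := by linarith [hMY.trans hYN]
    rw [Real.rpow_add hN0, Real.rpow_one, hC]
    calc C₀ * ((M : ℝ) * N) ^ (δ / 2) * (M + N) ≤ C₀ * (N : ℝ) ^ δ * (2 * N) := by gcongr
      _ = _ := by ring
  have hFs : F ⊆ Pool.Agent.H306R2.RZ.sqf M := by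
    intro m hm
    obtain ⟨h1, h2, h3⟩ := hF1 m hm
    unfold Pool.Agent.H306R2.RZ.sqf
    rw [mem_filter, Finset.mem_Icc]
    exact ⟨⟨h1, Nat.le_floor h3⟩, h2⟩
  have hmain := large y B M C hCnn (hLS M N hM1 hN1) s hs F hFs (b / 2) (by positivity) hW
  rw [← hKdef, ← hb] at hmain
  set R : ℝ := (F.card : ℝ) with hR
  have hR0 : 0 ≤ R := Nat.cast_nonneg _
  -- `R b ≤ 4 C`
  have s1 : R * b ≤ 8 * C₀ * (N : ℝ) ^ (1 + δ) := by
    have h1 : b * (R * b) ≤ b * (4 * C) := by nlinarith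
    have h2 := le_of_mul_le_mul_left h1 hb0
    linarith
  -- the binomial coefficient again
  have s2 : (N : ℝ) ^ (1 - δ) ≤ (N : ℝ) ^ (c + δ) * b := by
    have e1 : (N : ℝ) ^ (1 - δ) = ((y : ℝ) ^ (1 - δ)) ^ B := by
      rw [hNr, ← Real.rpow_natCast, ← Real.rpow_mul hy0.le, mul_comm, Real.rpow_mul hy0.le,
        Real.rpow_natCast]
    have e2 : (N : ℝ) ^ (c + δ) = ((y : ℝ) ^ (c + δ)) ^ B := by
      rw [hNr, ← Real.rpow_natCast, ← Real.rpow_mul hy0.le, mul_comm, Real.rpow_mul hy0.le,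
        Real.rpow_natCast]
    have h1 : (2 : ℝ) ^ B * ((K : ℝ) / 2) ^ B ≤ (2 : ℝ) ^ B * ((B : ℝ) ^ B * b) :=
      mul_le_mul_of_nonneg_left hb1 (by positivity)
    have h2 : (2 : ℝ) ^ B * ((K : ℝ) / 2) ^ B = (K : ℝ) ^ B := by
      rw [← mul_pow]; congr 1; ring
    have h3 : (2 : ℝ) ^ B * ((B : ℝ) ^ B * b) = (2 * (B : ℝ)) ^ B * b := by
      rw [mul_pow]; ring
    rw [e1, e2]
    calc ((y : ℝ) ^ (1 - δ)) ^ B ≤ (K : ℝ) ^ B := pow_le_pow_left₀ (by positivity) hK B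
      _ ≤ (2 * (B : ℝ)) ^ B * b := by rw [← h2, ← h3]; exact h1
      _ ≤ ((y : ℝ) ^ (c + δ)) ^ B * b := by
          apply mul_le_mul_of_nonneg_right _ hb0.le
          exact pow_le_pow_left₀ (by positivity) hB4 B
  have s3 : R * (N : ℝ) ^ (1 - δ) ≤ 8 * C₀ * (N : ℝ) ^ (c + 3 * δ) * (N : ℝ) ^ (1 - δ) := by
    calc R * (N : ℝ) ^ (1 - δ) ≤ R * ((N : ℝ) ^ (c + δ) * b) := mul_le_mul_of_nonneg_left s2 hR0
      _ = (N : ℝ) ^ (c + δ) * (R * b) := by ring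
      _ ≤ (N : ℝ) ^ (c + δ) * (8 * C₀ * (N : ℝ) ^ (1 + δ)) :=
          mul_le_mul_of_nonneg_left s1 (by positivity)
      _ = 8 * C₀ * ((N : ℝ) ^ (c + δ) * (N : ℝ) ^ (1 + δ)) := by ring
      _ = 8 * C₀ * ((N : ℝ) ^ (c + 3 * δ) * (N : ℝ) ^ (1 - δ)) := by
          rw [← Real.rpow_add hN0, ← Real.rpow_add hN0]; congr 2; ring
      _ = _ := by ring
  have s4 := le_of_mul_le_mul_right s3 (by positivity)
  have s5 : (N : ℝ) ^ (c + 3 * δ) ≤ Y ^ (c + 5 * δ) := by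
    calc (N : ℝ) ^ (c + 3 * δ) ≤ (Y ^ (1 + δ)) ^ (c + 3 * δ) :=
          Real.rpow_le_rpow hN0.le hNY (by linarith)
      _ = Y ^ ((1 + δ) * (c + 3 * δ)) := by rw [← Real.rpow_mul hY0.le]
      _ ≤ _ := by
          apply Real.rpow_le_rpow_of_exponent_le hYone
          nlinarith
  have s6 : (y : ℝ) ^ δ ≤ Y ^ δ := Real.rpow_le_rpow hy0.le hyY hδ0.le
  calc R ≤ 8 * C₀ * (N : ℝ) ^ (c + 3 * δ) := s4
    _ ≤ Y ^ δ * Y ^ (c + 5 * δ) := by
        apply mul_le_mul (h8C.trans s6) s5 (by positivity) (by positivity)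
    _ = Y ^ (c + 6 * δ) := by rw [← Real.rpow_add hY0]; congr 1; ring
    _ ≤ Y ^ (1 / 2 - δ) := Real.rpow_le_rpow_of_exponent_le hYone (by linarith)

end Pool.Agent.Helper9E
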