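import Pool.Agent.Helper9E.Repr
import Pool.Agent.Helper9E.Dyadic
import Pool.Agent.Helper9E.Hb

set_option autoImplicit false

open Finset Filter Topology

namespace Pool.Agent.Helper9E

open Pool.Agent.R852.LK Pool.Agent.R920.CH Pool.Agent.R852.BC

/-- **Few exceptional integers.** -/
theorem count3 (c ε : ℝ) (hc0 : 0 < c) (hc : c < 1 / 2) (hε : 0 < ε) : ∀ᶠ n : ℕ in atTop,
    ∀ X : ℝ, 0 ≤ X → X ≤ Real.exp ((n : ℝ) ^ c) → ∀ S : Finset ℤ,
      (∀ D ∈ S, |(D : ℝ)| ≤ X ∧ ¬ IsSquare D ∧ ∀ p ∈ PR n, ∃ t : ℤ, (p : ℤ) ∣ D - t ^ 2) →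
      (S.card : ℝ) ≤ √X / (n : ℝ) ^ (2 * Real.exp (1 / 2) - ε) := by
  classical
  set δ : ℝ := (1 - 2 * c) / 20 with hδ
  have hδ0 : 0 < δ := by rw [hδ]; linarith
  have hδ1 : δ ≤ 1 / 20 := by rw [hδ]; linarith
  have hcδ : 2 * c + 20 * δ = 1 := by rw [hδ]; ring
  set A₁ : ℝ := 4 / δ with hA₁
  have hA₁0 : 0 ≤ A₁ := by positivity
  set E : ℝ := Real.exp (1 / 2) with hE
  have hEb := exp_half_bounds
  rw [← hE] at hEb
  set C₂ : ℝ := 4 / (1 - (2 : ℝ) ^ (-δ)) with hC₂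
  have e1 : ∀ᶠ n : ℕ in atTop, C₂ ≤ (n : ℝ) ^ (4 - 2 * E + ε / 2) :=
    tendsto_natCast_atTop_atTop.eventually
      ((tendsto_rpow_atTop (by linarith : 0 < 4 - 2 * E + ε / 2)).eventually_ge_atTop _)
  have e2 : ∀ᶠ n : ℕ in atTop, (2 : ℝ) ≤ (n : ℝ) ^ (ε / 2) :=
    tendsto_natCast_atTop_atTop.eventually
      ((tendsto_rpow_atTop (by positivity : 0 < ε / 2)).eventually_ge_atTop _)
  filter_upwards [few3 c δ hc0 hδ0 hcδ, core A₁ (ε / 4) hA₁0 (by positivity),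
    main_sub 2 1 7 (ε / 2) (by norm_num) (by positivity), e1, e2, eventually_ge_atTop 1]
    with n hfew hcore hmain hC h2 hn1 X hX0 hXA S hS
  have hn0 : (0 : ℝ) < n := by exact_mod_cast hn1
  have hnone : (1 : ℝ) ≤ n := by exact_mod_cast hn1
  have hne : ∀ D ∈ S, D ≠ 0 := by
    rintro D hD rfl
    exact (hS 0 hD).2.1 ⟨0, by ring⟩
  choose! κ σ h1 h2' h3 using sqf
  -- the representation
  have hrep : ∀ D ∈ S, ∃ t : ℤ, 0 < t ∧ D = (κ D * (PP n (κ D) : ℤ) ^ 2) * t ^ 2 := fun D hD =>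
    repr n D (hS D hD).2.2 (κ D) (σ D) (h2' D (hne D hD)) (h3 D (hne D hD))
  choose! τ hτ1 hτ2 using hrep
  set g : ℤ → ℤ := fun D => κ D * (PP n (κ D) : ℤ) ^ 2 with hg
  set G : Finset ℤ := S.image g with hG
  have hPP : ∀ f : ℤ, (PP n f : ℤ) ≠ 0 := fun f => by
    have := PP_pos n f
    omega
  have hGrep : ∀ γ ∈ G, ∃ D ∈ S, g D = γ := fun γ hγ => Finset.mem_image.mp hγ
  -- properties of the elements of `G`
  have hg0 : ∀ γ ∈ G, γ ≠ 0 := by
    intro γ hγ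
    obtain ⟨D, hD, rfl⟩ := hGrep γ hγ
    intro h
    apply hne D hD
    rw [hτ2 D hD]
    show g D * _ = 0
    rw [h, zero_mul]
  have hgX : ∀ γ ∈ G, |(γ : ℝ)| ≤ X := by
    intro γ hγ
    obtain ⟨D, hD, rfl⟩ := hGrep γ hγ
    refine le_trans ?_ (hS D hD).1
    have e : (D : ℝ) = (g D : ℝ) * (τ D : ℝ) ^ 2 := by
      have := hτ2 D hD
      exact_mod_cast this
    conv_rhs => rw [e]
    rw [abs_mul]
    have ht : (1 : ℝ) ≤ (τ D : ℝ) := by exact_mod_cast hτ1 D hD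
    have ht2 : (1 : ℝ) ≤ |(τ D : ℝ) ^ 2| := by
      rw [abs_of_nonneg (sq_nonneg _)]; nlinarith
    exact le_mul_of_one_le_right (abs_nonneg _) ht2
  have hgns : ∀ γ ∈ G, ¬ IsSquare γ := by
    intro γ hγ
    obtain ⟨D, hD, rfl⟩ := hGrep γ hγ
    rintro ⟨t, ht⟩
    apply (hS D hD).2.1
    refine ⟨t * τ D, ?_⟩
    calc D = g D * τ D ^ 2 := hτ2 D hD
      _ = _ := by rw [ht]; ring
  have hgps : ∀ γ ∈ G, ∀ p ∈ PR n, ¬ (p : ℤ) ∣ γ → ps γ p = 1 := by
    intro γ hγ p hp hpγ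
    obtain ⟨D, hD, rfl⟩ := hGrep γ hγ
    exact repr_ps n (κ D) p hp hpγ
  have hgg : ∀ γ ∈ G, ∀ γ' ∈ G, γ ≠ γ' → ¬ IsSquare (γ * γ') := by
    intro γ hγ γ' hγ' hne' hsq
    obtain ⟨D, hD, rfl⟩ := hGrep γ hγ
    obtain ⟨D', hD', rfl⟩ := hGrep γ' hγ'
    apply hne'
    have e : g D * g D' = (κ D * κ D') * ((PP n (κ D) : ℤ) * (PP n (κ D') : ℤ)) ^ 2 := by
      simp only [hg]; ring
    rw [e] at hsq
    have h4 := isSquare_of_mul_sq _ _ (mul_ne_zero (hPP _) (hPP _)) hsq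
    have h5 := sq_prod _ _ (h1 D (hne D hD)) (h1 D' (hne D' hD')) h4
    simp only [hg]
    rw [h5]
  -- the elements of `G` are large
  have hlarge : ∀ γ ∈ G, (n : ℝ) ^ (4 * E - ε / 2) ≤ |(γ : ℝ)| := by
    intro γ hγ
    by_contra hcon
    push Not at hcon
    apply hgns γ hγ
    have h7 : (n : ℝ) ^ (4 * E - ε / 2) ≤ (n : ℝ) ^ (7 : ℝ) :=
      Real.rpow_le_rpow_of_exponent_le hnone (by linarith)
    refine hmain γ γ (hg0 γ hγ) (by push_cast; linarith) (by push_cast; exact hcon.le) ?_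
    intro p hp hp2 hpn hpγ
    have hpPR : p ∈ PR n := mem_PR.mpr ⟨by omega, hp, by omega⟩
    exact exists_sq γ p hp (by omega) hpγ (hgps γ hγ p hpPR hpγ)
  -- the fibres
  have hfib : ∀ γ ∈ G, ((S.filter fun D => g D = γ).card : ℝ) ≤ √X * (1 / √|(γ : ℝ)|) := by
    intro γ hγ
    rw [mul_one_div]
    refine fib X γ (hg0 γ hγ) (S.filter fun D => g D = γ) τ ?_
    intro D hD'
    rw [Finset.mem_filter] at hD'
    refine ⟨(hS D hD'.1).1, hτ1 D hD'.1, ?_⟩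
    rw [← hD'.2]
    exact hτ2 D hD'.1
  have hsum : (S.card : ℝ) = ∑ γ ∈ G, ((S.filter fun D => g D = γ).card : ℝ) := by
    have := Finset.card_eq_sum_card_image g S
    exact_mod_cast this
  have hXs : 0 ≤ √X := Real.sqrt_nonneg _
  have hS1 : (S.card : ℝ) ≤ √X * ∑ γ ∈ G, 1 / √|(γ : ℝ)| := by
    rw [hsum, mul_sum]
    exact sum_le_sum hfib
  set T : ℝ := (n : ℝ) ^ A₁ with hT
  have hT0 : 0 < T := Real.rpow_pos_of_pos hn0 _
  -- the small elements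
  have hsmall : ∑ γ ∈ G.filter (fun γ : ℤ => |(γ : ℝ)| ≤ T), 1 / √|(γ : ℝ)| ≤
      (n : ℝ) ^ (-(2 * E - ε / 2)) := by
    have g1 : (((G.filter (fun γ : ℤ => |(γ : ℝ)| ≤ T)).card : ℕ) : ℝ) ≤ (n : ℝ) ^ (ε / 4) := by
      apply hcore
      · intro f hf
        rw [mem_filter] at hf
        exact ⟨hg0 f hf.1, hf.2⟩
      · intro f hf f' hf' hff
        exact hgg f (mem_filter.mp hf).1 f' (mem_filter.mp hf').1 hff
      · intro f hf
        exact hgps f (mem_filter.mp hf).1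
    have g2 : ∀ γ ∈ G.filter (fun γ : ℤ => |(γ : ℝ)| ≤ T), 1 / √|(γ : ℝ)| ≤
        (n : ℝ) ^ (-(2 * E - ε / 4)) := by
      intro γ hγ
      have g3 := hlarge γ (mem_filter.mp hγ).1
      have e : (n : ℝ) ^ (2 * E - ε / 4) = √((n : ℝ) ^ (4 * E - ε / 2)) := by
        rw [Real.sqrt_eq_rpow, ← Real.rpow_mul hn0.le]; congr 1; ring
      rw [Real.rpow_neg hn0.le, e, ← one_div]
      exact one_div_le_one_div_of_le (Real.sqrt_pos.mpr (Real.rpow_pos_of_pos hn0 _))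
        (Real.sqrt_le_sqrt g3)
    calc ∑ γ ∈ G.filter (fun γ : ℤ => |(γ : ℝ)| ≤ T), 1 / √|(γ : ℝ)|
        ≤ ∑ _γ ∈ G.filter (fun γ : ℤ => |(γ : ℝ)| ≤ T), (n : ℝ) ^ (-(2 * E - ε / 4)) :=
          sum_le_sum g2
      _ = ((G.filter (fun γ : ℤ => |(γ : ℝ)| ≤ T)).card : ℝ) * (n : ℝ) ^ (-(2 * E - ε / 4)) := by
          rw [sum_const, nsmul_eq_mul]
      _ ≤ (n : ℝ) ^ (ε / 4) * (n : ℝ) ^ (-(2 * E - ε / 4)) := by gcongr
      _ = _ := by rw [← Real.rpow_add hn0]; congr 1; ring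
  -- the large elements
  have hbig : ∑ γ ∈ G.filter (fun γ : ℤ => ¬ |(γ : ℝ)| ≤ T), 1 / √|(γ : ℝ)| ≤
      (n : ℝ) ^ (-(2 * E - ε / 2)) := by
    have g1 := dyadic δ T hδ0 (by linarith) hT0 (G.filter (fun γ : ℤ => ¬ |(γ : ℝ)| ≤ T))
      (fun γ hγ => (not_le.mp (mem_filter.mp hγ).2).le) (by
        intro Y hTY
        set F := (G.filter (fun γ : ℤ => ¬ |(γ : ℝ)| ≤ T)).filter
          (fun γ : ℤ => |(γ : ℝ)| ≤ Y) with hF
        have hY0 : 0 < Y := lt_of_lt_of_le hT0 hTY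
        rcases F.eq_empty_or_nonempty with h | ⟨γ₀, hγ₀⟩
        · rw [h, card_empty]
          have : 0 ≤ Y ^ (1 / 2 - δ) := by positivity
          push_cast
          linarith
        have hFG : ∀ γ ∈ F, γ ∈ G ∧ T < |(γ : ℝ)| ∧ |(γ : ℝ)| ≤ Y := by
          intro γ hγ
          rw [hF, mem_filter, mem_filter, not_le] at hγ
          exact ⟨hγ.1.1, hγ.1.2, hγ.2⟩
        set Z : ℝ := min Y X with hZ
        have hγX : ∀ γ ∈ F, |(γ : ℝ)| ≤ Z := fun γ hγ =>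
          le_min (hFG γ hγ).2.2 (hgX γ (hFG γ hγ).1)
        have hTZ : T ≤ Z := ((hFG γ₀ hγ₀).2.1.le).trans (hγX γ₀ hγ₀)
        have hZ1 : (n : ℝ) ^ (1 / δ) ≤ Z := by
          refine le_trans ?_ hTZ
          apply Real.rpow_le_rpow_of_exponent_le hnone
          rw [hA₁]
          exact div_le_div_of_nonneg_right (by norm_num) hδ0.le
        have hZ2 : Z ≤ Real.exp ((n : ℝ) ^ c) := (min_le_right _ _).trans hXA
        have hZY : Z ^ (1 / 2 - δ) ≤ Y ^ (1 / 2 - δ) :=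
          Real.rpow_le_rpow (hT0.le.trans hTZ) (min_le_left _ _) (by linarith)
        have hpart : ∀ s : ℤ, (s = 1 ∨ s = -1) → ∀ F' : Finset ℤ, F' ⊆ F →
            (∀ γ ∈ F', 0 < s * γ) → (F'.card : ℝ) ≤ Y ^ (1 / 2 - δ) := by
          intro s hs F' hF' hpos
          have hs2 : s * s = 1 := by rcases hs with rfl | rfl <;> norm_num
          -- the squarefree parts
          have hκ : ∀ γ ∈ F', ∃ m : ℕ, 1 ≤ m ∧ Squarefree m ∧
              γ = (s * m) * (PP n (s * m) : ℤ) ^ 2 := by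
            intro γ hγ
            obtain ⟨D, hD, hDγ⟩ := hGrep γ (hFG γ (hF' hγ)).1
            have hsqf := h1 D (hne D hD)
            have hP := PP_pos n (κ D)
            have hP2 : (0 : ℤ) < (PP n (κ D) : ℤ) ^ 2 := by positivity
            have hsk : 0 < s * κ D := by
              have h5 := hpos γ hγ
              rw [← hDγ] at h5
              have h6 : s * g D = (s * κ D) * (PP n (κ D) : ℤ) ^ 2 := by simp only [hg]; ring
              rw [h6] at h5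
              exact pos_of_mul_pos_left h5 hP2.le
            have hm : (((s * κ D).toNat : ℕ) : ℤ) = s * κ D := Int.toNat_of_nonneg hsk.le
            have hsm : s * (((s * κ D).toNat : ℕ) : ℤ) = κ D := by
              rw [hm, ← mul_assoc, hs2, one_mul]
            refine ⟨(s * κ D).toNat, by omega, ?_, ?_⟩
            · rw [← Int.squarefree_natCast, hm]
              rw [← Int.squarefree_natAbs]
              rcases hs with rfl | rfl
              · rw [one_mul, Int.squarefree_natAbs]; exact hsqf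
              · rw [neg_one_mul, Int.natAbs_neg, Int.squarefree_natAbs]; exact hsqf
            · rw [hsm, ← hDγ]
          choose! μ hμ1 hμ2 hμ3 using hκ
          have hinj : Set.InjOn μ (F' : Set ℤ) := by
            intro γ hγ γ' hγ' h
            rw [hμ3 γ hγ, hμ3 γ' hγ', h]
          rw [← card_image_of_injOn hinj]
          refine (hfew Z hZ1 hZ2 s hs (F'.image μ) ?_ ?_).trans hZY
          · intro m hm
            obtain ⟨γ, hγ, rfl⟩ := mem_image.mp hm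
            refine ⟨hμ1 γ hγ, hμ2 γ hγ, le_trans ?_ (hγX γ (hF' hγ))⟩
            have hP := PP_pos n (s * (μ γ : ℤ))
            have e : |(γ : ℝ)| = (μ γ : ℝ) * ((PP n (s * (μ γ : ℤ)) : ℕ) : ℝ) ^ 2 := by
              have e1 : (γ : ℝ) = ((s * (μ γ : ℤ) * (PP n (s * (μ γ : ℤ)) : ℤ) ^ 2 : ℤ) : ℝ) := by
                exact_mod_cast hμ3 γ hγ
              rw [e1]
              push_cast
              rw [abs_mul, abs_mul, abs_of_nonneg (by positivity : (0 : ℝ) ≤ (μ γ : ℝ)),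
                abs_of_nonneg (by positivity :
                  (0 : ℝ) ≤ ((PP n (s * (μ γ : ℤ)) : ℕ) : ℝ) ^ 2)]
              rcases hs with rfl | rfl <;> simp
            rw [e]
            have hPr : (1 : ℝ) ≤ ((PP n (s * (μ γ : ℤ)) : ℕ) : ℝ) := by exact_mod_cast hP
            exact le_mul_of_one_le_right (Nat.cast_nonneg _) (one_le_pow₀ hPr)
          · intro m hm
            obtain ⟨γ, hγ, rfl⟩ := mem_image.mp hm
            have hγG := (hFG γ (hF' hγ)).1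
            have h5 := few_primes n γ (hg0 γ hγG) ((n : ℝ) ^ c)
              ((hγX γ (hF' hγ)).trans hZ2)
            refine le_trans ?_ h5
            have hsub : ((PR n).filter fun p => ps (s * (μ γ : ℤ)) p ≠ 1) ⊆
                (PR n).filter fun p : ℕ => (p : ℤ) ∣ γ := by
              intro p hp
              rw [mem_filter] at hp ⊢
              refine ⟨hp.1, ?_⟩
              by_contra hpγ
              apply hp.2
              rw [hμ3 γ hγ] at hpγ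
              have hpf : ¬ (p : ℤ) ∣ s * (μ γ : ℤ) := fun h' => hpγ (Dvd.dvd.mul_right h' _)
              obtain ⟨-, hp4, hp5⟩ := mem_PR.mp hp.1
              rcases ps_pm _ p hp4 hp5 hpf with h6 | h6
              · exact h6
              · exfalso
                apply hpγ
                apply Dvd.dvd.mul_left
                apply dvd_pow _ two_ne_zero
                exact_mod_cast dvd_prod_of_mem (fun p => p) (mem_filter.mpr ⟨hp.1, h6⟩)
            exact_mod_cast card_le_card hsub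
        have hp := hpart 1 (Or.inl rfl) (F.filter fun γ => 0 < γ) (filter_subset _ _) (by
          intro f hf
          rw [one_mul]
          exact (mem_filter.mp hf).2)
        have hm := hpart (-1) (Or.inr rfl) (F.filter fun γ => ¬ 0 < γ) (filter_subset _ _) (by
          intro f hf
          have f1 := (mem_filter.mp hf)
          have g1 := hg0 f (hFG f f1.1).1
          omega)
        have hadd := Finset.card_filter_add_card_filter_not (s := F) (fun γ : ℤ => 0 < γ)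
        have hadd' : (F.card : ℝ) = ((F.filter fun γ : ℤ => 0 < γ).card : ℝ) +
            ((F.filter fun γ : ℤ => ¬ 0 < γ).card : ℝ) := by exact_mod_cast hadd.symm
        rw [hadd']
        linarith)
    refine g1.trans ?_
    have e : T ^ (-δ) = (n : ℝ) ^ (-4 : ℝ) := by
      rw [hT, ← Real.rpow_mul hn0.le, hA₁]
      congr 1
      field_simp
    rw [← hC₂, e]
    calc C₂ * (n : ℝ) ^ (-4 : ℝ) ≤ (n : ℝ) ^ (4 - 2 * E + ε / 2) * (n : ℝ) ^ (-4 : ℝ) := by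
          gcongr
      _ = _ := by rw [← Real.rpow_add hn0]; congr 1; ring
  have htot : ∑ γ ∈ G, 1 / √|(γ : ℝ)| ≤ (n : ℝ) ^ (-(2 * E - ε)) := by
    rw [← Finset.sum_filter_add_sum_filter_not G (fun γ : ℤ => |(γ : ℝ)| ≤ T)]
    calc _ ≤ (n : ℝ) ^ (-(2 * E - ε / 2)) + (n : ℝ) ^ (-(2 * E - ε / 2)) :=
          add_le_add hsmall hbig
      _ = 2 * (n : ℝ) ^ (-(2 * E - ε / 2)) := by ring
      _ ≤ (n : ℝ) ^ (ε / 2) * (n : ℝ) ^ (-(2 * E - ε / 2)) := by gcongr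
      _ = _ := by rw [← Real.rpow_add hn0]; congr 1; ring
  calc (S.card : ℝ) ≤ √X * ∑ γ ∈ G, 1 / √|(γ : ℝ)| := hS1
    _ ≤ √X * (n : ℝ) ^ (-(2 * E - ε)) := mul_le_mul_of_nonneg_left htot hXs
    _ = _ := by rw [Real.rpow_neg hn0.le, div_eq_mul_inv]

/-- **Few exceptional discriminants.** -/
theorem disc3 (c ε : ℝ) (hc0 : 0 < c) (hc : c < 1 / 2) (hε : 0 < ε) : ∀ᶠ n : ℕ in atTop,
    ∀ X : ℝ, 0 ≤ X → X ≤ Real.exp ((n : ℝ) ^ c) → ∀ S : Finset ℤ,
      (∀ D ∈ S, |(D : ℝ)| ≤ X ∧ ¬ IsSquare D ∧ IsDisc n D) →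
      (S.card : ℝ) ≤ √X / (n : ℝ) ^ (2 * Real.exp (1 / 2) - ε) := by
  filter_upwards [count3 c ε hc0 hc hε] with n hn X hX0 hX S hS
  refine hn X hX0 hX S fun D hD => ?_
  obtain ⟨h1, h2, c₁, c₂, hRR, hc⟩ := hS D hD
  refine ⟨h1, h2, fun p hp => ?_⟩
  obtain ⟨hp1, hp2, hp3⟩ := mem_PR.mp hp
  rw [← hc]
  exact square_mod hRR p hp2 hp3 (by omega)

/-- **Few exceptional pairs.** -/
theorem pairs3 (c ε : ℝ) (hc0 : 0 < c) (hc : c < 1 / 2) (hε : 0 < ε) : ∀ᶠ n : ℕ in atTop,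
    ∀ H : ℝ, 1 ≤ H → H ≤ Real.exp ((n : ℝ) ^ c) →
    ∀ S : Finset (ℤ × ℤ), (∀ c ∈ S, |(c.1 : ℝ)| ≤ H ∧ |(c.2 : ℝ)| ≤ H ^ 2 ∧
      RiemannRoch n (poly2 c.1 c.2) ∧ ¬ ∃ a b : ℤ, c.1 = a + b ∧ c.2 = a * b) →
      (S.card : ℝ) ≤ H ^ 2 / (n : ℝ) ^ (2 * Real.exp (1 / 2) - ε) := by
  classical
  set c' : ℝ := (c + 1 / 2) / 2 with hc'
  have hc'0 : 0 < c' := by rw [hc']; linarith
  have hc'1 : c' < 1 / 2 := by rw [hc']; linarith
  have e1 : ∀ᶠ n : ℕ in atTop, (9 : ℝ) ≤ (n : ℝ) ^ (ε / 2) :=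
    tendsto_natCast_atTop_atTop.eventually
      ((tendsto_rpow_atTop (by positivity : (0 : ℝ) < ε / 2)).eventually_ge_atTop _)
  have e2 : ∀ᶠ n : ℕ in atTop, (4 : ℝ) ≤ (n : ℝ) ^ (c' - c) :=
    tendsto_natCast_atTop_atTop.eventually
      ((tendsto_rpow_atTop (by rw [hc']; linarith : (0 : ℝ) < c' - c)).eventually_ge_atTop _)
  filter_upwards [disc3 c' (ε / 2) hc'0 hc'1 (by positivity), e1, e2, eventually_ge_atTop 5]
    with n hcount h9 h4 hn5 H hH1 hHA S hS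
  have hn0 : (0 : ℝ) < n := by positivity
  have hn5' : (5 : ℝ) ≤ n := by exact_mod_cast hn5
  have hH0 : 0 < H := by linarith
  have hX : 5 * H ^ 2 ≤ Real.exp ((n : ℝ) ^ c') := by
    have h0 : (1 : ℝ) ≤ (n : ℝ) ^ c := Real.one_le_rpow (by linarith) hc0.le
    have h1 : 4 * (n : ℝ) ^ c ≤ (n : ℝ) ^ c' := by
      have e : (n : ℝ) ^ c' = (n : ℝ) ^ (c' - c) * (n : ℝ) ^ c := by
        rw [← Real.rpow_add hn0]; congr 1; ring
      rw [e]
      exact mul_le_mul_of_nonneg_right h4 (by positivity)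
    have h2 : H ^ 2 ≤ Real.exp (2 * (n : ℝ) ^ c) := by
      calc H ^ 2 ≤ (Real.exp ((n : ℝ) ^ c)) ^ 2 := pow_le_pow_left₀ hH0.le hHA 2
        _ = _ := by rw [← Real.exp_nat_mul]; push_cast; rfl
    have h3 : (5 : ℝ) ≤ Real.exp 2 := by
      have := Real.exp_one_gt_d9
      have e : Real.exp 2 = Real.exp 1 * Real.exp 1 := by rw [← Real.exp_add]; norm_num
      rw [e]
      nlinarith
    calc 5 * H ^ 2 ≤ Real.exp 2 * Real.exp (2 * (n : ℝ) ^ c) := by gcongr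
      _ = Real.exp (2 + 2 * (n : ℝ) ^ c) := (Real.exp_add _ _).symm
      _ ≤ _ := Real.exp_le_exp.mpr (by linarith)
  set S' : Finset ℤ := S.image fun c => c.1 ^ 2 - 4 * c.2 with hS'
  have hc'' := hcount (5 * H ^ 2) (by positivity) hX S' (by
    intro D hD
    obtain ⟨c, hc, rfl⟩ := Finset.mem_image.mp hD
    obtain ⟨h1, h2, h3, h4⟩ := hS c hc
    refine ⟨?_, fun hsq => h4 (split_of_square _ _ hsq), c.1, c.2, h3, rfl⟩
    push_cast
    have h5 : (c.1 : ℝ) ^ 2 ≤ H ^ 2 := by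
      rw [← sq_abs]; exact pow_le_pow_left₀ (abs_nonneg _) h1 2
    have h6 := abs_le.mp h2
    rw [abs_le]
    constructor
    · nlinarith [sq_nonneg (c.1 : ℝ)]
    · nlinarith [sq_nonneg (c.1 : ℝ)])
  -- the map `c ↦ (c₁, D)`
  have hcard : S.card ≤ (Finset.Icc (-(⌊H⌋₊ : ℤ)) ⌊H⌋₊ ×ˢ S').card := by
    apply Finset.card_le_card_of_injOn (fun c => (c.1, c.1 ^ 2 - 4 * c.2))
    · intro c hc
      rw [Finset.mem_coe, Finset.mem_product]
      refine ⟨?_, Finset.mem_image.mpr ⟨c, hc, rfl⟩⟩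
      rw [Finset.mem_Icc]
      have h1 := (hS c hc).1
      have h2 : c.1.natAbs ≤ ⌊H⌋₊ := by
        apply Nat.le_floor
        rw [Nat.cast_natAbs, Int.cast_abs]
        exact h1
      show -(⌊H⌋₊ : ℤ) ≤ c.1 ∧ c.1 ≤ (⌊H⌋₊ : ℤ)
      omega
    · intro c hc d hd hcd
      simp only [Prod.mk.injEq] at hcd
      obtain ⟨h1, h2⟩ := hcd
      rw [h1] at h2
      exact Prod.ext h1 (by linarith)
  rw [Finset.card_product, Int.card_Icc] at hcard
  have h1 : (((⌊H⌋₊ : ℤ) + 1 - -(⌊H⌋₊ : ℤ)).toNat : ℝ) ≤ 3 * H := by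
    have e : ((⌊H⌋₊ : ℤ) + 1 - -(⌊H⌋₊ : ℤ)).toNat = 2 * ⌊H⌋₊ + 1 := by omega
    rw [e]
    push_cast
    linarith [Nat.floor_le hH0.le]
  have h2 : (S.card : ℝ) ≤ (3 * H) * (S'.card : ℝ) := by
    calc (S.card : ℝ) ≤ ((((⌊H⌋₊ : ℤ) + 1 - -(⌊H⌋₊ : ℤ)).toNat * S'.card : ℕ) : ℝ) := by
          exact_mod_cast hcard
      _ = (((⌊H⌋₊ : ℤ) + 1 - -(⌊H⌋₊ : ℤ)).toNat : ℝ) * (S'.card : ℝ) := by push_cast; ring
      _ ≤ _ := mul_le_mul_of_nonneg_right h1 (Nat.cast_nonneg _)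
  have h3 : √(5 * H ^ 2) ≤ 3 * H := by
    rw [Real.sqrt_le_left (by positivity)]
    nlinarith
  have hp : 0 < (n : ℝ) ^ (2 * Real.exp (1 / 2) - ε / 2) := Real.rpow_pos_of_pos hn0 _
  have hp' : 0 < (n : ℝ) ^ (2 * Real.exp (1 / 2) - ε) := Real.rpow_pos_of_pos hn0 _
  have e : (n : ℝ) ^ (2 * Real.exp (1 / 2) - ε / 2) =
      (n : ℝ) ^ (2 * Real.exp (1 / 2) - ε) * (n : ℝ) ^ (ε / 2) := by
    rw [← Real.rpow_add hn0]; congr 1; ring
  calc (S.card : ℝ) ≤ (3 * H) * (S'.card : ℝ) := h2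
    _ ≤ (3 * H) * (√(5 * H ^ 2) / (n : ℝ) ^ (2 * Real.exp (1 / 2) - ε / 2)) := by gcongr
    _ ≤ (3 * H) * (3 * H / (n : ℝ) ^ (2 * Real.exp (1 / 2) - ε / 2)) := by gcongr
    _ = 9 * H ^ 2 / (n : ℝ) ^ (2 * Real.exp (1 / 2) - ε / 2) := by ring
    _ ≤ (n : ℝ) ^ (ε / 2) * H ^ 2 / (n : ℝ) ^ (2 * Real.exp (1 / 2) - ε / 2) := by gcongr
    _ = H ^ 2 / (n : ℝ) ^ (2 * Real.exp (1 / 2) - ε) := by
        rw [e]
        have : (n : ℝ) ^ (ε / 2) ≠ 0 := (Real.rpow_pos_of_pos hn0 _).ne'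
        field_simp

end Pool.Agent.Helper9E
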