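import Pool.Agent.R852.LK.Pairs

set_option autoImplicit false

open Finset Filter Topology

namespace Pool.Agent.Helper9E

open Pool.Agent.R852.LK

/-- few primes divide `f` -/
lemma few_primes (y : ℕ) (f : ℤ) (hf : f ≠ 0) (V : ℝ) (hV : |(f : ℝ)| ≤ Real.exp V) :
    (((PR y).filter fun p : ℕ => (p : ℤ) ∣ f).card : ℝ) ≤ 2 * V := by
  set D : Finset ℕ := (PR y).filter fun p : ℕ => (p : ℤ) ∣ f with hD
  have hd1 : (∏ p ∈ D, p) ∣ f.natAbs := by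
    apply Finset.prod_primes_dvd
    · intro p hp
      exact (mem_PR.mp (mem_filter.mp hp).1).2.1.prime
    · intro p hp
      exact Int.natCast_dvd.mp (mem_filter.mp hp).2
  have hd2 : 2 ^ D.card ≤ f.natAbs := by
    calc 2 ^ D.card = ∏ _p ∈ D, 2 := by rw [prod_const]
      _ ≤ ∏ p ∈ D, p := prod_le_prod' fun p hp =>
          (mem_PR.mp (mem_filter.mp hp).1).2.1.two_le
      _ ≤ f.natAbs := Nat.le_of_dvd (Int.natAbs_pos.mpr hf) hd1
  have hd3 : ((2 : ℝ) ^ D.card) ≤ Real.exp V := by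
    have h1 : ((2 ^ D.card : ℕ) : ℝ) ≤ (f.natAbs : ℝ) := by exact_mod_cast hd2
    push_cast at h1
    rw [Nat.cast_natAbs, Int.cast_abs] at h1
    exact h1.trans hV
  have hd4 : (D.card : ℝ) * Real.log 2 ≤ V := by
    have h1 := Real.log_le_log (by positivity) hd3
    rwa [Real.log_pow, Real.log_exp] at h1
  have hl2 : (1 / 2 : ℝ) ≤ Real.log 2 := by linarith [Real.log_two_gt_d9]
  have h1 : (D.card : ℝ) * (1 / 2) ≤ V :=
    (mul_le_mul_of_nonneg_left hl2 (Nat.cast_nonneg _)).trans hd4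
  linarith

lemma ps_zero (f : ℤ) (p : ℕ) (hp : p.Prime) (h : (p : ℤ) ∣ f) : ps f p = 0 := by
  have : Fact p.Prime := ⟨hp⟩
  unfold ps
  split_ifs
  · rw [← jacobiSym.legendreSym.to_jacobiSym, legendreSym.eq_zero_iff]
    exact (ZMod.intCast_zmod_eq_zero_iff_dvd f p).mpr h
  · rfl

lemma ps_pm (f : ℤ) (p : ℕ) (hp : p.Prime) (hp2 : p ≠ 2) (h : ¬ (p : ℤ) ∣ f) :
    ps f p = 1 ∨ ps f p = -1 := by
  have : Fact p.Prime := ⟨hp⟩
  unfold ps
  rw [if_pos (hp.odd_of_ne_two hp2), ← jacobiSym.legendreSym.to_jacobiSym]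
  have h0 : (f : ZMod p) ≠ 0 := fun h' => h ((ZMod.intCast_zmod_eq_zero_iff_dvd f p).mp h')
  exact legendreSym.eq_one_or_neg_one p h0

lemma exists_sq (f : ℤ) (p : ℕ) (hp : p.Prime) (hp2 : p ≠ 2) (h : ¬ (p : ℤ) ∣ f)
    (h1 : ps f p = 1) : ∃ t : ℤ, (p : ℤ) ∣ f - t ^ 2 := by
  have : Fact p.Prime := ⟨hp⟩
  unfold ps at h1
  rw [if_pos (hp.odd_of_ne_two hp2), ← jacobiSym.legendreSym.to_jacobiSym] at h1
  have h0 : (f : ZMod p) ≠ 0 := fun h' => h ((ZMod.intCast_zmod_eq_zero_iff_dvd f p).mp h')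
  rw [legendreSym.eq_one_iff p h0] at h1
  obtain ⟨r, hr⟩ := h1
  refine ⟨(r.val : ℤ), ?_⟩
  rw [← ZMod.intCast_zmod_eq_zero_iff_dvd]
  push_cast
  rw [ZMod.natCast_zmod_val, hr]
  ring

lemma isSquare_of_mul_sq (a b : ℤ) (hb : b ≠ 0) (h : IsSquare (a * b ^ 2)) : IsSquare a := by
  obtain ⟨t, ht⟩ := h
  have hdvd : b ^ 2 ∣ t ^ 2 := ⟨a, by rw [sq t, ← ht]; ring⟩
  obtain ⟨u, hu⟩ := (Int.pow_dvd_pow_iff two_ne_zero).mp hdvd
  refine ⟨u, ?_⟩
  apply mul_right_cancel₀ (pow_ne_zero 2 hb)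
  rw [ht, hu]; ring

/-- the product of the exceptional primes -/
def PP (n : ℕ) (f : ℤ) : ℕ := ∏ p ∈ (PR n).filter (fun p => ps f p = -1), p

lemma PP_pos (n : ℕ) (f : ℤ) : 0 < PP n f :=
  prod_pos fun _ hp => (mem_PR.mp (mem_filter.mp hp).1).2.1.pos

/-- the new representation of a discriminant -/
lemma repr (n : ℕ) (D : ℤ) (h : ∀ p ∈ PR n, ∃ t : ℤ, (p : ℤ) ∣ D - t ^ 2) (f s : ℤ)
    (hs : 0 < s) (hfs : D = f * s ^ 2) :
    ∃ t : ℤ, 0 < t ∧ D = (f * (PP n f : ℤ) ^ 2) * t ^ 2 := by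
  have hdvd : PP n f ∣ s.natAbs := by
    apply Finset.prod_primes_dvd
    · intro p hp
      exact (mem_PR.mp (mem_filter.mp hp).1).2.1.prime
    · intro p hp
      obtain ⟨hp1, hp2⟩ := mem_filter.mp hp
      obtain ⟨hp3, hp4, hp5⟩ := mem_PR.mp hp1
      rw [← Int.natCast_dvd]
      by_contra hps
      have hpf : ¬ (p : ℤ) ∣ f := fun h' => by
        rw [ps_zero f p hp4 h'] at hp2; norm_num at hp2
      have hpp := Nat.prime_iff_prime_int.mp hp4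
      have hpD : ¬ (p : ℤ) ∣ D := by
        rw [hfs]
        intro h'
        rcases hpp.dvd_or_dvd h' with h1 | h1
        · exact hpf h1
        · exact hps (hpp.dvd_of_dvd_pow h1)
      have h1 := ps_one_of D p hp4 hp5 hpD (h p hp1)
      rw [hfs, sq, ps_left, ps_left, hp2] at h1
      nlinarith [mul_self_nonneg (ps s p)]
  obtain ⟨t, ht⟩ := Int.natCast_dvd.mpr hdvd
  have hP : (0 : ℤ) < (PP n f : ℤ) := by exact_mod_cast PP_pos n f
  refine ⟨t, ?_, by rw [hfs, ht]; ring⟩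
  rw [ht] at hs
  exact pos_of_mul_pos_right hs hP.le |> fun h => h

lemma repr_ps (n : ℕ) (f : ℤ) (p : ℕ) (hp : p ∈ PR n) (h : ¬ (p : ℤ) ∣ f * (PP n f : ℤ) ^ 2) :
    ps (f * (PP n f : ℤ) ^ 2) p = 1 := by
  obtain ⟨hp3, hp4, hp5⟩ := mem_PR.mp hp
  have hpf : ¬ (p : ℤ) ∣ f := fun h' => h (Dvd.dvd.mul_right h' _)
  have hpP : ¬ (p : ℤ) ∣ (PP n f : ℤ) := fun h' =>
    h (Dvd.dvd.mul_left (dvd_pow h' two_ne_zero) _)
  have h1 : ps f p = 1 := by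
    rcases ps_pm f p hp4 hp5 hpf with h1 | h1
    · exact h1
    · exfalso
      apply hpP
      exact_mod_cast dvd_prod_of_mem (fun p => p) (mem_filter.mpr ⟨hp, h1⟩)
  rw [sq, ps_left, ps_left, h1]
  rcases ps_pm (PP n f : ℤ) p hp4 hp5 hpP with h2 | h2 <;> rw [h2] <;> norm_num

end Pool.Agent.Helper9E
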